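import Pool.Agent.W988.WD.Defs

set_option autoImplicit false
open scoped InnerProductSpace Topology
open Filter

/-!
# Project WD, part AVG: an element commuting with the matrix units
-/

namespace Pool.Agent.W372.WD

open Pool.Agent.W988.WD

section

variable {H : Type} [NormedAddCommGroup H] [InnerProductSpace ℂ H] [CompleteSpace H]
  {N : VonNeumannAlgebra H} {e : H →L[ℂ] H} {g : ℕ → (H →L[ℂ] H)}

theorem g_e (h : MUnits N e g) (i : ℕ) : g i * e = g i := by
  have h2 := h.ini i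
  have h3 := h.prj.2
  have h1 : star (g i - g i * e) * (g i - g i * e) = 0 := by
    rw [star_sub, star_mul, h.prj.1]
    calc (star (g i) - e * star (g i)) * (g i - g i * e) = star (g i) * g i - (star (g i) * g i) * e -
          e * (star (g i) * g i) + e * (star (g i) * g i) * e := by noncomm_ring
      _ = 0 := by rw [h2, h3, h3]; abel
  have h4 := (CStarRing.star_mul_self_eq_zero_iff _).1 h1
  exact (sub_eq_zero.1 h4).symm

/-- matrix units -/
noncomputable def EE (g : ℕ → (H →L[ℂ] H)) (i j : ℕ) : H →L[ℂ] H := g i * star (g j)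

theorem EE_mul (h : MUnits N e g) (i j k l : ℕ) :
    EE g i j * EE g k l = if j = k then EE g i l else 0 := by
  unfold EE
  have h0 : g i * star (g j) * (g k * star (g l)) = g i * (star (g j) * g k) * star (g l) := by
    noncomm_ring
  rw [h0]
  split_ifs with hjk
  · rw [hjk, h.ini, g_e h]
  · rw [h.ort j k hjk, mul_zero, zero_mul]

theorem EE_star (i j : ℕ) : star (EE g i j) = EE g j i := by
  unfold EE
  rw [star_mul, star_star]

theorem EE_mem (h : MUnits N e g) (i j : ℕ) : EE g i j ∈ N :=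
  mul_mem (h.mem i) (star_mem (h.mem j))

/-! ### permutations -/

/-- the partial unitary of a permutation -/
noncomputable def SS (g : ℕ → (H →L[ℂ] H)) (n : ℕ) (s : Equiv.Perm (Fin n)) : H →L[ℂ] H :=
  ∑ i : Fin n, EE g (s i) i

theorem SS_EE (h : MUnits N e g) {n : ℕ} (s : Equiv.Perm (Fin n)) (j : Fin n) (k : ℕ) :
    SS g n s * EE g j k = EE g (s j) k := by
  unfold SS
  rw [Finset.sum_mul]
  have h1 : ∀ i : Fin n, EE g (s i) i * EE g j k = if i = j then EE g (s i) k else 0 := by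
    intro i
    rw [EE_mul h]
    simp only [Fin.val_inj]
  simp_rw [h1]
  simp

theorem SS_mul (h : MUnits N e g) {n : ℕ} (s t : Equiv.Perm (Fin n)) :
    SS g n s * SS g n t = SS g n (s * t) := by
  have h1 : SS g n t = ∑ i : Fin n, EE g (t i) i := rfl
  have h2 : SS g n (s * t) = ∑ i : Fin n, EE g ((s * t) i) i := rfl
  rw [h1, h2, Finset.mul_sum]
  refine Finset.sum_congr rfl fun i _ => ?_
  rw [SS_EE h]
  rfl

theorem SS_star {n : ℕ} (s : Equiv.Perm (Fin n)) : star (SS g n s) = SS g n s⁻¹ := by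
  unfold SS
  rw [star_sum]
  refine Fintype.sum_equiv s _ _ fun i => ?_
  rw [EE_star]
  simp

theorem SS_mem (h : MUnits N e g) {n : ℕ} (s : Equiv.Perm (Fin n)) : SS g n s ∈ N :=
  sum_mem fun _ _ => EE_mem h _ _

/-- the unitary of a permutation -/
noncomputable def RR (g : ℕ → (H →L[ℂ] H)) (n : ℕ) (s : Equiv.Perm (Fin n)) : H →L[ℂ] H :=
  1 - SS g n 1 + SS g n s

theorem RR_mul (h : MUnits N e g) {n : ℕ} (s t : Equiv.Perm (Fin n)) :
    RR g n s * RR g n t = RR g n (s * t) := by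
  unfold RR
  have h1 := SS_mul h s t
  have h2 := SS_mul h (1 : Equiv.Perm (Fin n)) t
  have h3 := SS_mul h s (1 : Equiv.Perm (Fin n))
  have h4 := SS_mul h (1 : Equiv.Perm (Fin n)) (1 : Equiv.Perm (Fin n))
  rw [one_mul] at h2 h4
  rw [mul_one] at h3
  have h5 : (1 - SS g n 1 + SS g n s) * (1 - SS g n 1 + SS g n t) =
      1 - SS g n 1 - SS g n 1 + SS g n 1 * SS g n 1 + SS g n t - SS g n 1 * SS g n t + SS g n s -
        SS g n s * SS g n 1 + SS g n s * SS g n t := by noncomm_ring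
  rw [h5, h1, h2, h3, h4]
  abel

theorem RR_one {n : ℕ} : RR g n 1 = 1 := by
  unfold RR
  abel

theorem RR_star {n : ℕ} (s : Equiv.Perm (Fin n)) : star (RR g n s) = RR g n s⁻¹ := by
  unfold RR
  rw [star_add, star_sub, star_one, SS_star, SS_star, inv_one]

theorem RR_mem (h : MUnits N e g) {n : ℕ} (s : Equiv.Perm (Fin n)) : RR g n s ∈ N :=
  add_mem (sub_mem (one_mem _) (SS_mem h _)) (SS_mem h _)

theorem RR_EE (h : MUnits N e g) {n : ℕ} (s : Equiv.Perm (Fin n)) (j : Fin n) (k : ℕ) :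
    RR g n s * EE g j k = EE g (s j) k := by
  unfold RR
  rw [add_mul, sub_mul, one_mul, SS_EE h, SS_EE h]
  simp

theorem EE_RR (h : MUnits N e g) {n : ℕ} (s : Equiv.Perm (Fin n)) (j : Fin n) (k : ℕ) :
    EE g k j * RR g n s = EE g k (s⁻¹ j) := by
  have h1 := congrArg star (RR_EE h s⁻¹ j k)
  rw [star_mul, EE_star, EE_star, RR_star, inv_inv] at h1
  exact h1

theorem RR_unitary (h : MUnits N e g) {n : ℕ} (s : Equiv.Perm (Fin n)) :
    RR g n s ∈ unitary (H →L[ℂ] H) := by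
  rw [Unitary.mem_iff, RR_star, RR_mul h, RR_mul h, inv_mul_cancel, mul_inv_cancel, RR_one]
  exact ⟨rfl, rfl⟩

/-- the average -/
noncomputable def Av (g : ℕ → (H →L[ℂ] H)) (n : ℕ) (z : H →L[ℂ] H) : H →L[ℂ] H :=
  ∑ s : Equiv.Perm (Fin n), ((Fintype.card (Equiv.Perm (Fin n)) : ℝ)⁻¹) • (RR g n s * z * RR g n s⁻¹)

theorem Av_mem (h : MUnits N e g) (n : ℕ) {C : Set (H →L[ℂ] H)} (hC : Convex ℝ C)
    (hinv : ∀ u ∈ unitary (H →L[ℂ] H), u ∈ N → ∀ z ∈ C, u * z * star u ∈ C) {z : H →L[ℂ] H}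
    (hz : z ∈ C) : Av g n z ∈ C := by
  refine hC.sum_mem (fun _ _ => by positivity) ?_ fun s _ => ?_
  · rw [Finset.sum_const, Finset.card_univ, nsmul_eq_mul]
    exact mul_inv_cancel₀ (by exact_mod_cast Fintype.card_ne_zero)
  · rw [← RR_star]
    exact hinv _ (RR_unitary h s) (RR_mem h s) z hz

theorem Av_comm (h : MUnits N e g) (n : ℕ) (z : H →L[ℂ] H) (t : Equiv.Perm (Fin n)) :
    RR g n t * Av g n z = Av g n z * RR g n t := by
  have h1 : RR g n t * Av g n z * RR g n t⁻¹ = Av g n z := by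
    unfold Av
    rw [Finset.mul_sum, Finset.sum_mul]
    refine Fintype.sum_equiv (Equiv.mulLeft t) _ _ fun s => ?_
    rw [mul_smul_comm, smul_mul_assoc]
    congr 1
    have : RR g n t * (RR g n s * z * RR g n s⁻¹) * RR g n t⁻¹ =
        (RR g n t * RR g n s) * z * (RR g n s⁻¹ * RR g n t⁻¹) := by noncomm_ring
    rw [this, RR_mul h, RR_mul h, ← mul_inv_rev]
    rfl
  calc RR g n t * Av g n z = RR g n t * Av g n z * (RR g n t⁻¹ * RR g n t) := by
        rw [RR_mul h, inv_mul_cancel, RR_one, mul_one]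
    _ = RR g n t * Av g n z * RR g n t⁻¹ * RR g n t := by noncomm_ring
    _ = _ := by rw [h1]

theorem Av_diag (h : MUnits N e g) (n : ℕ) (z : H →L[ℂ] H)
    (hz : ∀ i : Fin n, z * EE g i i = EE g i i * z) (i : Fin n) :
    Av g n z * EE g i i = EE g i i * Av g n z := by
  unfold Av
  rw [Finset.mul_sum, Finset.sum_mul]
  refine Finset.sum_congr rfl fun s _ => ?_
  rw [mul_smul_comm, smul_mul_assoc]
  congr 1
  have h1 : RR g n s⁻¹ * EE g i i = EE g (s⁻¹ i) (s⁻¹ i) * RR g n s⁻¹ := by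
    rw [RR_EE h, EE_RR h]
    simp
  have h2 : EE g i i * RR g n s = RR g n s * EE g (s⁻¹ i) (s⁻¹ i) := by
    rw [RR_EE h, EE_RR h]
    simp
  calc RR g n s * z * RR g n s⁻¹ * EE g i i = RR g n s * z * (RR g n s⁻¹ * EE g i i) := by noncomm_ring
    _ = RR g n s * (z * EE g (s⁻¹ i) (s⁻¹ i)) * RR g n s⁻¹ := by rw [h1]; noncomm_ring
    _ = (RR g n s * EE g (s⁻¹ i) (s⁻¹ i)) * z * RR g n s⁻¹ := by rw [hz]; noncomm_ring
    _ = EE g i i * (RR g n s * z * RR g n s⁻¹) := by rw [← h2]; noncomm_ring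

/-! ### the diagonal -/

theorem diag (h : MUnits N e g) {C : Set (H →L[ℂ] H)} (hC : Convex ℝ C) (hne : C.Nonempty)
    (hinv : ∀ u ∈ unitary (H →L[ℂ] H), u ∈ N → ∀ z ∈ C, u * z * star u ∈ C) (n : ℕ) :
    ∃ z ∈ C, ∀ i < n, z * EE g i i = EE g i i * z := by
  induction n with
  | zero =>
    obtain ⟨z, hz⟩ := hne
    exact ⟨z, hz, fun i hi => absurd hi (by omega)⟩
  | succ k ih =>
    obtain ⟨z, hz, hzc⟩ := ih
    set P := EE g k k with hP
    have hPP : P * P = P := by rw [hP, EE_mul h, if_pos rfl]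
    have hPs : star P = P := by rw [hP, EE_star]
    have hu1 : star (1 - (2 : ℂ) • P) = 1 - (2 : ℂ) • P := by
      rw [star_sub, star_smul, star_one, hPs]
      simp
    have hu2 : (1 - (2 : ℂ) • P) * (1 - (2 : ℂ) • P) = 1 := by
      have : (1 - (2 : ℂ) • P) * (1 - (2 : ℂ) • P) = 1 - (4 : ℂ) • P + (4 : ℂ) • (P * P) := by
        simp only [sub_mul, mul_sub, one_mul, mul_one, smul_mul_smul_comm]
        module
      rw [this, hPP]
      abel
    have hu3 : 1 - (2 : ℂ) • P ∈ unitary (H →L[ℂ] H) := by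
      rw [Unitary.mem_iff, hu1, hu2]
      exact ⟨rfl, rfl⟩
    have hu4 : 1 - (2 : ℂ) • P ∈ N := by
      rw [two_smul]
      exact sub_mem (one_mem _) (add_mem (EE_mem h k k) (EE_mem h k k))
    have hz2 := hinv _ hu3 hu4 z hz
    rw [hu1] at hz2
    have hz3 := hC hz hz2 (by norm_num : (0 : ℝ) ≤ 1 / 2) (by norm_num : (0 : ℝ) ≤ 1 / 2) (by norm_num)
    have hz4 : (1 / 2 : ℝ) • z + (1 / 2 : ℝ) • ((1 - (2 : ℂ) • P) * z * (1 - (2 : ℂ) • P)) =
        P * z * P + (1 - P) * z * (1 - P) := by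
      have h5 : (1 - (2 : ℂ) • P) * z * (1 - (2 : ℂ) • P) =
          (P * z * P + (1 - P) * z * (1 - P)) + (P * z * P + (1 - P) * z * (1 - P)) - z := by
        rw [two_smul]
        noncomm_ring
      rw [h5]
      module
    rw [hz4] at hz3
    refine ⟨_, hz3, fun i hi => ?_⟩
    rcases Nat.lt_succ_iff_lt_or_eq.1 hi with hik | hik
    · have h1 : P * EE g i i = 0 := by rw [hP, EE_mul h, if_neg (by omega)]
      have h2 : EE g i i * P = 0 := by rw [hP, EE_mul h, if_neg (by omega)]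
      have h3 := hzc i hik
      calc (P * z * P + (1 - P) * z * (1 - P)) * EE g i i
          = P * z * (P * EE g i i) + (1 - P) * z * EE g i i - (1 - P) * z * (P * EE g i i) := by noncomm_ring
        _ = z * EE g i i - P * (z * EE g i i) := by rw [h1]; noncomm_ring
        _ = z * EE g i i := by rw [h3, ← mul_assoc, h1]; noncomm_ring
        _ = EE g i i * z - EE g i i * z * P := by
            rw [← h3, mul_assoc z, h2]; noncomm_ring
        _ = (EE g i i * P) * z * P + EE g i i * z * (1 - P) - (EE g i i * P) * z * (1 - P) := by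
            rw [h2]; noncomm_ring
        _ = _ := by noncomm_ring
    · rw [hik, ← hP]
      calc (P * z * P + (1 - P) * z * (1 - P)) * P
          = P * z * (P * P) + (1 - P) * z * (P - P * P) := by noncomm_ring
        _ = (P * P) * z * P + (P - P * P) * z * (1 - P) := by rw [hPP]; noncomm_ring
        _ = _ := by noncomm_ring

theorem step (h : MUnits N e g) {C : Set (H →L[ℂ] H)} (hC : Convex ℝ C) (hne : C.Nonempty)
    (hinv : ∀ u ∈ unitary (H →L[ℂ] H), u ∈ N → ∀ z ∈ C, u * z * star u ∈ C) (n : ℕ) :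
    ∃ z ∈ C, ∀ i < n, ∀ j < n, z * EE g i j = EE g i j * z := by
  obtain ⟨z, hz, hd⟩ := diag h hC hne hinv n
  refine ⟨Av g n z, Av_mem h n hC hinv hz, fun i hi j hj => ?_⟩
  have h1 := Av_diag h n z (fun i => hd i i.2) ⟨j, hj⟩
  have h2 := Av_comm h n z (Equiv.swap ⟨i, hi⟩ ⟨j, hj⟩)
  have h3 := RR_EE h (Equiv.swap (⟨i, hi⟩ : Fin n) ⟨j, hj⟩) ⟨j, hj⟩ j
  rw [Equiv.swap_apply_right] at h3
  simp only at h1 h3
  rw [← h3, ← mul_assoc, ← h2, mul_assoc, h1, ← mul_assoc]

end

theorem p_AVG (h : S_CPT) : S_AVG := by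
  intro H _ _ _ N e g hM C hne hC hbd hinv hcl
  choose z hz hzc using step hM hC hne hinv
  obtain ⟨R, hR⟩ := hbd
  obtain ⟨w, -, hw⟩ := (h H ℕ (hyperfilter ℕ) z).1 R fun i => hR _ (hz i)
  refine ⟨w, hcl _ z w hz hw, fun i j => ?_⟩
  change w * EE g i j = EE g i j * w
  have hev : ∀ᶠ n in (hyperfilter ℕ : Filter ℕ), z n * EE g i j = EE g i j * z n := by
    have h1 : ∀ᶠ n in (atTop : Filter ℕ), z n * EE g i j = EE g i j * z n := by
      filter_upwards [eventually_gt_atTop i, eventually_gt_atTop j] with n hi hj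
      exact hzc n i hi j hj
    exact h1.filter_mono Nat.hyperfilter_le_atTop
  ext ξ
  refine ext_inner_left ℂ fun η => ?_
  have h1 := hw (EE g i j ξ) η
  have h2 := hw ξ (star (EE g i j) η)
  have h3 : ∀ T : H →L[ℂ] H, ⟪star (EE g i j) η, T ξ⟫_ℂ = ⟪η, (EE g i j * T) ξ⟫_ℂ := by
    intro T
    rw [ContinuousLinearMap.star_eq_adjoint, ContinuousLinearMap.adjoint_inner_left]
    rfl
  simp_rw [h3] at h2
  refine tendsto_nhds_unique h1 (h2.congr' ?_)
  filter_upwards [hev] with n hn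
  rw [← hn]
  rfl

end Pool.Agent.W372.WD
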