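import Pool.Agent.W558.WD.Stms
import Pool.Agent.W558.S.All

set_option autoImplicit false
set_option linter.unusedVariables false
set_option linter.unusedSectionVars false

universe u

open Polynomial Pool.Agent.W558 Pool.Agent.W363.RS

namespace Pool.Agent.W372.WD.Bnd

section

variable {k E : Type u} [Field k] [Field E] [Algebra k E] {O O' : Subalgebra k E}
  {e x y z w : E}

lemma BB_le (hQ : Quad O e O') : BB O e ≤ O' := by
  refine Algebra.adjoin_le ?_
  rintro y (hy | ⟨y', hy', rfl⟩)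
  · exact hQ.le hy
  · exact hQ.div _ hy'

lemma not_NU_up (hle : O ≤ O') (hx : x ∈ O) (h : ¬ NU O x) : ¬ NU O' x := by
  have h1 := (not_NU_iff hx).1 h
  exact not_NU_of_inv h1.1 (hle h1.2)

lemma div_mem (hQ : Quad O e O') (hx : NU O x) : x / e ∈ O' := by
  rw [div_eq_mul_inv]; exact hQ.div x hx

/-- Change of the local equation of the exceptional divisor. -/
lemma quad_change (hQ : Quad O e O') (hx : NU O x) (h : ¬ NU O' (x / e)) :
    Quad O x O' ∧ x ≠ 0 ∧ e / x ∈ O' := by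
  have e0 := hQ.e0
  have hxe : x / e ∈ O' := div_mem hQ hx
  obtain ⟨h0, hi⟩ := (not_NU_iff hxe).1 h
  have x0 : x ≠ 0 := by rintro rfl; simp at h0
  have hex : e / x ∈ O' := by rw [inv_div] at hi; exact hi
  have heB : e / x ∈ BB O x :=
    Algebra.subset_adjoin (Or.inr ⟨e, hQ.eO, div_eq_mul_inv _ _⟩)
  have hOB : ∀ a ∈ O, a ∈ BB O x := fun a ha => Algebra.subset_adjoin (Or.inl ha)
  have key : ∀ a ∈ BB O e, ∃ l : ℕ, (e / x) ^ l * a ∈ BB O x := by
    intro a ha
    refine Algebra.adjoin_induction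
      (p := fun g _ => ∃ l : ℕ, (e / x) ^ l * g ∈ BB O x) ?_ ?_ ?_ ?_ ha
    · rintro g (hg | ⟨y', hy', rfl⟩)
      · exact ⟨0, by rw [pow_zero, one_mul]; exact hOB g hg⟩
      · refine ⟨1, ?_⟩
        have h1 : (e / x) ^ 1 * (y' * e⁻¹) = y' * x⁻¹ := by field_simp
        rw [h1]
        exact Algebra.subset_adjoin (Or.inr ⟨y', hy', rfl⟩)
    · intro r
      exact ⟨0, by rw [pow_zero, one_mul]; exact (BB O x).algebraMap_mem r⟩
    · rintro a b - - ⟨l, hl⟩ ⟨m, hm⟩
      refine ⟨l + m, ?_⟩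
      have h1 : (e / x) ^ (l + m) * (a + b) =
          (e / x) ^ m * ((e / x) ^ l * a) + (e / x) ^ l * ((e / x) ^ m * b) := by
        rw [pow_add]; ring
      rw [h1]
      exact (BB O x).add_mem ((BB O x).mul_mem ((BB O x).pow_mem heB _) hl)
        ((BB O x).mul_mem ((BB O x).pow_mem heB _) hm)
    · rintro a b - - ⟨l, hl⟩ ⟨m, hm⟩
      refine ⟨l + m, ?_⟩
      have h1 : (e / x) ^ (l + m) * (a * b) =
          ((e / x) ^ l * a) * ((e / x) ^ m * b) := by
        rw [pow_add]; ring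
      rw [h1]
      exact (BB O x).mul_mem hl hm
  refine ⟨⟨x0, hx, hQ.le, hQ.nu, ?_, hQ.loc, ?_⟩, x0, hex⟩
  · intro y' hy'
    have h1 : y' * x⁻¹ = (y' * e⁻¹) * (e / x) := by field_simp
    rw [h1]
    exact O'.mul_mem (hQ.div y' hy') hex
  · intro q hq
    obtain ⟨a, ha, b, hb, hb0, hbi, rfl⟩ := hQ.frac q hq
    obtain ⟨l, hl⟩ := key a ha
    obtain ⟨m, hm⟩ := key b hb
    have hex0 : e / x ≠ 0 := div_ne_zero e0 x0
    refine ⟨(e / x) ^ m * ((e / x) ^ l * a), (BB O x).mul_mem ((BB O x).pow_mem heB _) hl,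
      (e / x) ^ l * ((e / x) ^ m * b), (BB O x).mul_mem ((BB O x).pow_mem heB _) hm, ?_, ?_, ?_⟩
    · exact mul_ne_zero (pow_ne_zero _ hex0) (mul_ne_zero (pow_ne_zero _ hex0) hb0)
    · rw [mul_inv, mul_inv, ← inv_pow, ← inv_pow, inv_div]
      exact O'.mul_mem (O'.pow_mem hxe _) (O'.mul_mem (O'.pow_mem hxe _) hbi)
    · have h1 := pow_ne_zero l hex0
      have h2 := pow_ne_zero m hex0
      generalize (e / x) ^ l = s at h1 ⊢
      generalize (e / x) ^ m = t at h2 ⊢
      field_simp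

lemma one_eq (hQ : Quad O e O') (h : Par O x y) :
    ∃ α ∈ O, ∃ β ∈ O, e = α * x + β * y ∧ α * (x / e) + β * (y / e) = 1 := by
  obtain ⟨α, hα, β, hβ, h1⟩ := h.gen e hQ.eO
  refine ⟨α, hα, β, hβ, h1, ?_⟩
  have e0 := hQ.e0
  have h2 : α * (x / e) + β * (y / e) = (α * x + β * y) / e := by ring
  rw [h2, ← h1, div_self e0]

/-- At a point of the strict transform of `x = 0` the second parameter is an equation of the
exceptional divisor. -/
lemma par_of_NU (hQ : Quad O e O') (hO : Ad O) (h : Par O x y)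
    (hx : NU O' (x / e)) : Par O x e ∧ ¬ NU O' (y / e) := by
  obtain ⟨α, hα, β, hβ, h1, h2⟩ := one_eq hQ h
  have h3 : ¬ NU O' (β * (y / e)) := by
    intro h4
    have h5 := hQ.loc _ _ (hx.mul_left (hQ.le hα)) h4
    rw [h2] at h5
    exact not_NU_one h5
  have h4 : ¬ NU O β := fun h5 => h3 ((hQ.nu β h5).mul_right (div_mem hQ h.pv))
  obtain ⟨β0, βi⟩ := (not_NU_iff hβ).1 h4
  have h5 : β * y + α * x = e := by rw [h1]; ring
  have h6 := h.symm.change hO hβ β0 βi hα (by rw [h5]; exact hQ.e0)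
  rw [h5] at h6
  exact ⟨h6.symm, fun h7 => h3 (h7.mul_left (hQ.le hβ))⟩

lemma par_corner {u v : E} (hQ : Quad O e O') (hp : Par O' u v) (h : Par O x e)
    (hx : NU O' (x / e)) : Par O' e (x / e) := by
  have e0 := hQ.e0
  refine Par_of_gen hp hQ.loc (hQ.nu e hQ.eO) hx e0 (div_ne_zero h.u0 e0) ?_
  intro g hg
  obtain ⟨p, hp, q, hq, hq0, hqi, hxpq⟩ := hQ.frac g hg.1
  obtain ⟨c, hc, d, hd, h6⟩ := mem_BB hQ h hp
  rw [← div_eq_mul_inv] at h6
  have hBB := BB_le hQ
  have h7 : NU O' p := by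
    have h8 := hg.mul_right (hBB hq)
    rwa [hxpq, inv_mul_cancel_right₀ hq0] at h8
  have h8 : NU O' c := by
    have h9 := Ad.sub hQ.loc h7 (hx.mul_right hd)
    rwa [h6, add_sub_cancel_right] at h9
  have h9 : NU O c := by
    by_contra hn
    exact not_NU_up hQ.le hc hn h8
  obtain ⟨α, hα, β, hβ, h10⟩ := h.gen c h9
  refine ⟨(α * (x / e) + β) * q⁻¹, O'.mul_mem (O'.add_mem (O'.mul_mem (hQ.le hα) hx.1)
    (hQ.le hβ)) hqi, d * q⁻¹, O'.mul_mem hd hqi, ?_⟩
  rw [hxpq, h6, h10]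
  field_simp

lemma exists_par_e {u v : E} (hQ : Quad O e O') (hO : Ad O) (h : Par O u v) :
    ∃ z, Par O z e := by
  by_cases hu : NU O' (u / e)
  · exact ⟨u, (par_of_NU hQ hO h hu).1⟩
  · obtain ⟨α, hα, β, hβ, h1, h2⟩ := one_eq hQ h
    by_cases hα1 : NU O α
    · by_cases hβ1 : NU O β
      · exfalso
        have h3 := hQ.loc _ _ ((hQ.nu α hα1).mul_right (div_mem hQ h.pu))
          ((hQ.nu β hβ1).mul_right (div_mem hQ h.pv))
        rw [h2] at h3
        exact not_NU_one h3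
      · obtain ⟨β0, βi⟩ := (not_NU_iff hβ).1 hβ1
        have h5 : β * v + α * u = e := by rw [h1]; ring
        have h6 := h.symm.change hO hβ β0 βi hα (by rw [h5]; exact hQ.e0)
        rw [h5] at h6
        exact ⟨u, h6.symm⟩
    · obtain ⟨α0, αi⟩ := (not_NU_iff hα).1 hα1
      have h6 := h.change hO hα α0 αi hβ (by rw [← h1]; exact hQ.e0)
      rw [← h1] at h6
      exact ⟨v, h6.symm⟩

/-- The elements of `O[𝔪/e]` are polynomials in `z / e`. -/
lemma mem_BB_poly (hQ : Quad O e O') (h : Par O z e) {g : E} (hg : g ∈ BB O e) :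
    ∃ F : O[X], aeval (z / e) F = g := by
  have e0 := hQ.e0
  refine Algebra.adjoin_induction (p := fun g _ => ∃ F : O[X], aeval (z / e) F = g)
    ?_ ?_ ?_ ?_ hg
  · rintro x (hx | ⟨y, hy, rfl⟩)
    · exact ⟨C ⟨x, hx⟩, by rw [aeval_C]; rfl⟩
    · obtain ⟨α, hα, β, hβ, h1⟩ := h.gen y hy
      refine ⟨C ⟨α, hα⟩ * X + C ⟨β, hβ⟩, ?_⟩
      rw [map_add, map_mul, aeval_C, aeval_C, aeval_X, h1]
      change α * (z / e) + β = _
      field_simp
  · intro r
    exact ⟨C (algebraMap k O r), by rw [aeval_C]; rfl⟩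
  · rintro x y - - ⟨F, hF⟩ ⟨G, hG⟩
    exact ⟨F + G, by rw [map_add, hF, hG]⟩
  · rintro x y - - ⟨F, hF⟩ ⟨G, hG⟩
    exact ⟨F * G, by rw [map_mul, hF, hG]⟩

lemma exists_gen (hQ : Quad O e O') (hO : Ad O) (h : Par O z e) :
    ∃ y', NU O' y' ∧ ∀ x, NU O' x → ∃ α ∈ O', ∃ β ∈ O', x = α * e + β * y' := by
  have e0 := hQ.e0
  have hloc : IsLocalRing O := isLocalRing_of_loc hO
  have hτ : z / e ∈ O' := div_mem hQ h.pu
  have hmem : ∀ F : O[X], aeval (z / e) F ∈ O' := by
    intro F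
    induction F using Polynomial.induction_on' with
    | add p q hp hq => rw [map_add]; exact O'.add_mem hp hq
    | monomial n a =>
      rw [aeval_monomial]
      exact O'.mul_mem (hQ.le a.2) (O'.pow_mem hτ n)
  let J : Ideal O[X] :=
    { carrier := {F | NU O' (aeval (z / e) F)}
      add_mem' := by
        intro F G hF hG
        change NU O' _
        rw [map_add]
        exact hQ.loc _ _ hF hG
      zero_mem' := by
        change NU O' _
        rw [map_zero]
        exact NU.zero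
      smul_mem' := by
        intro F G hG
        change NU O' _
        rw [smul_eq_mul, map_mul]
        exact NU.mul_left hG (hmem F) }
  have hJ : ∀ F : O[X], F ∈ J ↔ NU O' (aeval (z / e) F) := fun F => Iff.rfl
  let ρ : O[X] →+* (IsLocalRing.ResidueField O)[X] := mapRingHom (IsLocalRing.residue O)
  have hρ : Function.Surjective ρ := by
    intro q
    exact Polynomial.map_surjective _ IsLocalRing.residue_surjective q
  obtain ⟨g, hg⟩ := (IsPrincipalIdealRing.principal (J.map ρ)).principal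
  rw [← Ideal.span] at hg
  have hg1 : g ∈ J.map ρ := by rw [hg]; exact Ideal.mem_span_singleton_self g
  obtain ⟨G, hG, hGg⟩ := (Ideal.mem_map_iff_of_surjective ρ hρ).1 hg1
  refine ⟨aeval (z / e) G, hG, ?_⟩
  intro x hx
  obtain ⟨p, hp, q, hq, hq0, hqi, hxpq⟩ := hQ.frac x hx.1
  have hBB := BB_le hQ
  have h7 : NU O' p := by
    have h8 := hx.mul_right (hBB hq)
    rwa [hxpq, inv_mul_cancel_right₀ hq0] at h8
  obtain ⟨F, rfl⟩ := mem_BB_poly hQ h hp
  have h8 : ρ F ∈ J.map ρ := Ideal.mem_map_of_mem ρ h7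
  rw [hg, Ideal.mem_span_singleton'] at h8
  obtain ⟨a, ha⟩ := h8
  obtain ⟨A, rfl⟩ := hρ a
  have h9 : ρ (F - A * G) = 0 := by
    rw [map_sub, map_mul, hGg, ha, sub_self]
  have h10 : ∀ M : O[X], ρ M = 0 → ∃ c ∈ O', aeval (z / e) M = c * e := by
    intro M hM
    have h11 : ∀ n, NU O (M.coeff n : E) := by
      intro n
      rw [← residue_eq_zero_NU]
      have := congrArg (fun P : (IsLocalRing.ResidueField O)[X] => P.coeff n) hM
      simpa [ρ] using this
    refine ⟨∑ n ∈ M.support, ((M.coeff n : E) * e⁻¹) * (z / e) ^ n, ?_, ?_⟩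
    · exact O'.sum_mem fun n _ => O'.mul_mem (hQ.div _ (h11 n)) (O'.pow_mem hτ n)
    · rw [aeval_eq_sum_range, Finset.sum_mul]
      have h12 : ∀ n, M.coeff n • (z / e) ^ n = (M.coeff n : E) * e⁻¹ * (z / e) ^ n * e := by
        intro n
        rw [Algebra.smul_def]
        change (M.coeff n : E) * _ = _
        field_simp
      rw [Finset.sum_congr rfl fun n _ => h12 n]
      symm
      apply Finset.sum_subset
      · intro n hn
        rw [Finset.mem_range]
        exact Nat.lt_succ_of_le (le_natDegree_of_mem_supp n hn)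
      · intro n _ hn
        rw [notMem_support_iff] at hn
        rw [hn]
        simp
  obtain ⟨c, hc, h11⟩ := h10 _ h9
  have h12 : aeval (z / e) F = c * e + aeval (z / e) A * aeval (z / e) G := by
    rw [map_sub, map_mul] at h11
    linear_combination h11
  refine ⟨c * q⁻¹, O'.mul_mem hc hqi, aeval (z / e) A * q⁻¹, O'.mul_mem (hmem A) hqi, ?_⟩
  rw [hxpq, h12]
  ring

/-- The maximal ideal of a regular two-dimensional local ring is not principal. -/
lemma not_principal {u v : E} (hO : Ad O) (h : Par O u v)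
    (hgen : ∀ x, NU O x → ∃ α ∈ O, x = α * e) (he : NU O e) : False := by
  obtain ⟨a, ha, h1⟩ := hgen u h.pu
  obtain ⟨b, hb, h2⟩ := hgen v h.pv
  obtain ⟨c, hc, d, hd, h3⟩ := h.gen e he
  have e0 : e ≠ 0 := by
    rintro rfl
    exact h.u0 (by rw [h1, mul_zero])
  have h4 : c * a + d * b = 1 := by
    have h5 : e * (c * a + d * b) = e * 1 := by
      rw [h1, h2] at h3
      linear_combination -h3
    exact mul_left_cancel₀ e0 h5
  have key : ∀ u v a b : E, Par O u v → a ∈ O → b ∈ O → u = a * e → v = b * e →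
      ¬ NU O a → False := by
    intro u v a b h ha hb h1 h2 hna
    obtain ⟨a0, ai⟩ := (not_NU_iff ha).1 hna
    obtain ⟨s, hs, h5⟩ := h.reg (b * a⁻¹) (O.mul_mem hb ai) 1 O.one_mem (by
      rw [h1, h2]; field_simp)
    exact not_NU_one (by rw [h5]; exact h.pu.mul_right hs)
  by_cases hna : NU O a
  · by_cases hnb : NU O b
    · have h5 := hO _ _ (hna.mul_left hc) (hnb.mul_left hd)
      rw [h4] at h5
      exact not_NU_one h5
    · exact key v u b a h.symm hb ha h2 h1 hnb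
  · exact key u v a b h ha hb h1 h2 hna

theorem exists_par_exc {u v u' v' : E} (hQ : Quad O e O') (hO : Ad O) (h : Par O u v)
    (h' : Par O' u' v') : ∃ y', Par O' e y' := by
  obtain ⟨z, hz⟩ := exists_par_e hQ hO h
  obtain ⟨y', hy', hgen⟩ := exists_gen hQ hO hz
  have e1 := hQ.nu e hQ.eO
  have y0 : y' ≠ 0 := by
    rintro rfl
    refine not_principal (e := e) hQ.loc h' ?_ e1
    intro x hx
    obtain ⟨α, hα, β, hβ, h1⟩ := hgen x hx
    exact ⟨α, hα, by rw [h1]; ring⟩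
  exact ⟨y', Par_of_gen h' hQ.loc e1 hy' hQ.e0 y0 hgen⟩

lemma uo_mul {c : E} (hc : c ∈ O) (c0 : c ≠ 0) (ci : c⁻¹ ∈ O) : uo O (c * x) = uo O x := by
  ext z
  constructor
  · rintro ⟨w, hw, w0, wi, rfl⟩
    refine ⟨w * c, O.mul_mem hw hc, mul_ne_zero w0 c0, ?_, by ring⟩
    rw [mul_inv]
    exact O.mul_mem wi ci
  · rintro ⟨w, hw, w0, wi, rfl⟩
    refine ⟨w * c⁻¹, O.mul_mem hw ci, mul_ne_zero w0 (inv_ne_zero c0), ?_, by field_simp⟩
    rw [mul_inv, inv_inv]
    exact O.mul_mem wi hc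

lemma NU_mul_unit {c : E} (hc : c ∈ O) (c0 : c ≠ 0) (ci : c⁻¹ ∈ O) :
    NU O (c * x) ↔ NU O x := by
  constructor
  · intro h
    have := h.mul_left ci
    rwa [inv_mul_cancel_left₀ c0] at this
  · intro h
    exact h.mul_left hc

lemma btr_uo (hQ : Quad O e O') :
    btr O (uo O x) e O' = uo O' e ∪ {z | NU O' (x / e) ∧ z ∈ uo O' (x / e)} := by
  ext z
  constructor
  · rintro (h | ⟨w, ⟨c, hc, c0, ci, rfl⟩, h1, h2⟩)
    · exact Or.inl h
    · right
      rw [mul_div_assoc] at h1 h2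
      rw [uo_mul (hQ.le hc) c0 (hQ.le ci)] at h2
      rw [NU_mul_unit (hQ.le hc) c0 (hQ.le ci)] at h1
      exact ⟨h1, h2⟩
  · rintro (h | ⟨h1, h2⟩)
    · exact Or.inl h
    · exact Or.inr ⟨x, ⟨1, O.one_mem, one_ne_zero, by rw [inv_one]; exact O.one_mem,
        by rw [one_mul]⟩, h1, h2⟩

lemma btr_union {b1 b2 : Set E} :
    btr O (b1 ∪ b2) e O' = btr O b1 e O' ∪ btr O b2 e O' := by
  ext z
  constructor
  · rintro (h | ⟨w, hw | hw, h1⟩)
    · exact Or.inl (Or.inl h)
    · exact Or.inl (Or.inr ⟨w, hw, h1⟩)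
    · exact Or.inr (Or.inr ⟨w, hw, h1⟩)
  · rintro ((h | ⟨w, hw, h1⟩) | (h | ⟨w, hw, h1⟩))
    · exact Or.inl h
    · exact Or.inr ⟨w, Or.inl hw, h1⟩
    · exact Or.inl h
    · exact Or.inr ⟨w, Or.inr hw, h1⟩

lemma btr_of_NU (hQ : Quad O e O') (h : NU O' (x / e)) :
    btr O (uo O x) e O' = uo O' e ∪ uo O' (x / e) := by
  rw [btr_uo hQ]
  ext z
  simp [h]

lemma btr_of_not_NU (hQ : Quad O e O') (h : ¬ NU O' (x / e)) :
    btr O (uo O x) e O' = uo O' e := by
  rw [btr_uo hQ]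
  ext z
  simp [h]

/-- If `x / e` is a unit then `x` is a local equation of the exceptional divisor. -/
lemma uo_e (hQ : Quad O e O') (hx : NU O x) (h : ¬ NU O' (x / e)) : uo O' e = uo O' x := by
  obtain ⟨hQ', x0, hex⟩ := quad_change hQ hx h
  have e0 := hQ.e0
  have h1 : e = (e / x) * x := by field_simp
  conv_lhs => rw [h1]
  refine uo_mul hex (div_ne_zero e0 x0) ?_
  rw [inv_div]
  exact div_mem hQ hx

/-- If `x / e` is a unit then the strict transforms can be computed with `x`. -/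
lemma uo_div (hQ : Quad O e O') (hx : NU O x) (h : ¬ NU O' (x / e)) :
    uo O' (y / e) = uo O' (y / x) ∧ (NU O' (y / e) ↔ NU O' (y / x)) := by
  obtain ⟨hQ', x0, hex⟩ := quad_change hQ hx h
  have e0 := hQ.e0
  have h1 : y / e = (x / e) * (y / x) := by field_simp
  have hxe := div_mem hQ hx
  have h2 : (x / e)⁻¹ ∈ O' := by rw [inv_div]; exact hex
  rw [h1]
  exact ⟨uo_mul hxe (div_ne_zero x0 e0) h2, NU_mul_unit hxe (div_ne_zero x0 e0) h2⟩

end

/-- The boundary of the blowup. -/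
theorem main : WD_bnd.{u} := by
  intro k E _ _ _ _ h2 O O' e hO hO' hQ
  obtain ⟨A, hA, hpt⟩ := hO
  obtain ⟨A', hA', hpt'⟩ := hO'
  obtain ⟨u, v, -, -, -, -, -, -, hp, -, -⟩ := all_par k E h2 A O hA hpt
  obtain ⟨u', v', -, -, -, -, -, -, hp', -, -⟩ := all_par k E h2 A' O' hA' hpt'
  have adO : Ad O := hpt.loc
  refine ⟨exists_par_exc hQ adO hp hp', ?_, ?_, ?_⟩
  · ext z
    constructor
    · rintro (h | ⟨w, hw, -⟩)
      · exact h
      · exact absurd hw (Set.notMem_empty w)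
    · exact Or.inl
  · intro x y h
    by_cases hx : NU O' (x / e)
    · right
      have h1 := (par_of_NU hQ adO h hx).1
      exact ⟨e, h1, hQ, par_corner hQ hp' h1 hx, btr_of_NU hQ hx⟩
    · left
      exact ⟨(quad_change hQ h.pu hx).1, by rw [btr_of_not_NU hQ hx, uo_e hQ h.pu hx]⟩
  · intro x y h
    by_cases hx : NU O' (x / e)
    · -- the point is on the strict transform of `x = 0`
      right; right
      obtain ⟨h1, hy⟩ := par_of_NU hQ adO h hx
      obtain ⟨hQ', y0, hey⟩ := quad_change hQ h.pv hy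
      obtain ⟨h3, h4⟩ := uo_div (y := x) hQ h.pv hy
      refine ⟨hQ', par_corner hQ' hp' h (h4.1 hx), ?_⟩
      rw [btr_union, btr_of_NU hQ hx, btr_of_not_NU hQ hy, uo_e hQ h.pv hy, h3,
        Set.union_right_comm, Set.union_self]
    · obtain ⟨hQ', x0, hex⟩ := quad_change hQ h.pu hx
      obtain ⟨h3, h4⟩ := uo_div (y := y) hQ h.pu hx
      by_cases hy : NU O' (y / e)
      · right; left
        refine ⟨hQ', par_corner hQ' hp' h.symm (h4.1 hy), ?_⟩
        rw [btr_union, btr_of_not_NU hQ hx, btr_of_NU hQ hy, uo_e hQ h.pu hx, h3,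
          ← Set.union_assoc, Set.union_self]
      · left
        refine ⟨hQ', ?_, ?_⟩
        · have h5 := fun h6 => hy (h4.2 h6)
          exact ((not_NU_iff (div_mem hQ' h.pv)).1 h5).2
        · rw [btr_union, btr_of_not_NU hQ hx, btr_of_not_NU hQ hy, uo_e hQ h.pu hx,
            Set.union_self]

end Pool.Agent.W372.WD.Bnd
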